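import Pool.Agent.L5helper59.DM.Defs

/-!
# D2: nondegeneracy is open
-/

set_option autoImplicit false

open MvPolynomial Filter Topology

namespace Pool.Agent.L5helper50.DMO

/-- A linear functional is continuous for coefficientwise convergence with bounded degree. -/
theorem lin_tendsto {ι : Type} [Fintype ι] (F : MvPolynomial ι ℂ)
    (Fk : ℕ → MvPolynomial ι ℂ) (D : ℕ) (hdeg : ∀ k, (Fk k).totalDegree ≤ D)
    (hlim : ∀ d, Tendsto (fun k => coeff d (Fk k)) atTop (𝓝 (coeff d F)))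
    (Φ : MvPolynomial ι ℂ →ₗ[ℂ] ℂ) : Tendsto (fun k => Φ (Fk k)) atTop (𝓝 (Φ F)) := by
  classical
  set E : Finset (ι →₀ ℕ) := (Finsupp.finite_of_degree_le (σ := ι) D).toFinset with hE
  have hsupp : ∀ (G : MvPolynomial ι ℂ), G.totalDegree ≤ D → ∀ m, m ∉ E → coeff m G = 0 := by
    intro G hG m hm
    apply coeff_eq_zero_of_totalDegree_lt
    refine lt_of_le_of_lt hG ?_
    have h2 : ¬ Finsupp.degree m ≤ D := by
      intro h
      exact hm (by rw [hE, Set.Finite.mem_toFinset]; exact h)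
    have h3 := not_le.1 h2
    rwa [Finsupp.degree_apply] at h3
  have hF : ∀ m, m ∉ E → coeff m F = 0 := by
    intro m hm
    have h2 := hlim m
    have h3 : (fun k => coeff m (Fk k)) = fun _ => 0 := funext fun k => hsupp _ (hdeg k) m hm
    rw [h3] at h2
    exact tendsto_nhds_unique h2 tendsto_const_nhds
  have hrep : ∀ G : MvPolynomial ι ℂ, (∀ m, m ∉ E → coeff m G = 0) →
      Φ G = ∑ m ∈ E, coeff m G * Φ (monomial m 1) := by
    intro G hG
    have h2 : G = ∑ m ∈ E, coeff m G • monomial m (1 : ℂ) := by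
      ext d
      rw [coeff_sum]
      simp only [coeff_smul, coeff_monomial, smul_eq_mul, mul_ite, mul_one, mul_zero]
      rw [Finset.sum_ite_eq']
      by_cases hd : d ∈ E
      · rw [if_pos hd]
      · rw [if_neg hd, hG d hd]
    conv_lhs => rw [h2]
    rw [map_sum]
    refine Finset.sum_congr rfl fun m _ => ?_
    rw [map_smul, smul_eq_mul]
  rw [hrep F hF]
  have h4 : (fun k => Φ (Fk k)) = fun k => ∑ m ∈ E, coeff m (Fk k) * Φ (monomial m 1) :=
    funext fun k => hrep _ (hsupp _ (hdeg k))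
  rw [h4]
  exact tendsto_finsetSum _ fun m _ => (hlim m).mul_const _

end Pool.Agent.L5helper50.DMO

namespace Pool.Agent.L5helper59.DM

open Pool.Agent.L5helper50.DMO

/-- D2 -/
theorem pt_open {ι κ : Type} [Fintype ι] [Fintype κ] [DecidableEq ι] [DecidableEq κ]
    (hcard : Fintype.card ι = Fintype.card κ + 1) (F : MvPolynomial ι ℂ)
    (Fk : ℕ → MvPolynomial ι ℂ) (D : ℕ) (hdeg : ∀ k, (Fk k).totalDegree ≤ D)
    (hlim : ∀ d, Tendsto (fun k => coeff d (Fk k)) atTop (𝓝 (coeff d F)))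
    (w : κ → ι → ℂ) (p : ι → ℂ) (h : Pt F w p) :
    ∀ᶠ k in atTop, eval p (Fk k) = 0 → (∀ e, ∑ i, w e i * eval p (pderiv i (Fk k)) = 0) →
      Pt (Fk k) w p := by
  classical
  obtain ⟨e⟩ : Nonempty (ι ≃ Option κ) :=
    Fintype.card_eq.1 (by rw [hcard, Fintype.card_option])
  set N : MvPolynomial ι ℂ → Matrix (Option κ) (Option κ) ℂ := fun G =>
    Matrix.of fun o i => match o with
      | none => eval p (pderiv (e.symm i) G)
      | some o' => ∑ i', w o' i' * eval p (pderiv (e.symm i) (pderiv i' G)) with hN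
  have hmul0 : ∀ (G : MvPolynomial ι ℂ) (z : ι → ℂ),
      ((N G).mulVec fun i => z (e.symm i)) none = ∑ i, z i * eval p (pderiv i G) := by
    intro G z
    rw [Matrix.mulVec, dotProduct, ← e.sum_comp]
    refine Finset.sum_congr rfl fun i _ => ?_
    simp only [hN, Matrix.of_apply, Equiv.symm_apply_apply]
    ring
  have hmul1 : ∀ (G : MvPolynomial ι ℂ) (z : ι → ℂ) (o : κ),
      ((N G).mulVec fun i => z (e.symm i)) (some o) =
        ∑ i, ∑ j, z j * w o i * eval p (pderiv j (pderiv i G)) := by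
    intro G z o
    rw [Matrix.mulVec, dotProduct, ← e.sum_comp, Finset.sum_comm]
    refine Finset.sum_congr rfl fun j _ => ?_
    simp only [hN, Matrix.of_apply, Equiv.symm_apply_apply]
    rw [Finset.sum_mul]
    exact Finset.sum_congr rfl fun i _ => by ring
  have hdet0 : (N F).det ≠ 0 := by
    intro h0
    obtain ⟨v, hv, hv0⟩ := Matrix.exists_mulVec_eq_zero_iff.2 h0
    apply hv
    have hz : (fun i => (fun i => v (e i)) (e.symm i)) = v := by
      funext i; simp
    have h1 := h.2.2 (fun i => v (e i)) (by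
      rw [← hmul0, hz, hv0]; rfl) (fun o => by
      rw [← hmul1, hz, hv0]; rfl)
    funext j
    have := congrFun h1 (e.symm j)
    simpa using this
  have hlin : ∀ Φ : MvPolynomial ι ℂ →ₗ[ℂ] ℂ, Tendsto (fun k => Φ (Fk k)) atTop (𝓝 (Φ F)) :=
    lin_tendsto F Fk D hdeg hlim
  have hd1 : ∀ i, Tendsto (fun k => eval p (pderiv i (Fk k))) atTop
      (𝓝 (eval p (pderiv i F))) := by
    intro i
    have := hlin ((aeval p : MvPolynomial ι ℂ →ₐ[ℂ] ℂ).toLinearMap ∘ₗ
      ((pderiv i : Derivation ℂ (MvPolynomial ι ℂ) (MvPolynomial ι ℂ)) :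
        MvPolynomial ι ℂ →ₗ[ℂ] MvPolynomial ι ℂ))
    exact this
  have hd2 : ∀ i j, Tendsto (fun k => eval p (pderiv j (pderiv i (Fk k)))) atTop
      (𝓝 (eval p (pderiv j (pderiv i F)))) := by
    intro i j
    have := hlin ((aeval p : MvPolynomial ι ℂ →ₐ[ℂ] ℂ).toLinearMap ∘ₗ
      ((pderiv j : Derivation ℂ (MvPolynomial ι ℂ) (MvPolynomial ι ℂ)) :
        MvPolynomial ι ℂ →ₗ[ℂ] MvPolynomial ι ℂ) ∘ₗ
      ((pderiv i : Derivation ℂ (MvPolynomial ι ℂ) (MvPolynomial ι ℂ)) :
        MvPolynomial ι ℂ →ₗ[ℂ] MvPolynomial ι ℂ))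
    exact this
  have hNlim : Tendsto (fun k => N (Fk k)) atTop (𝓝 (N F)) := by
    refine tendsto_pi_nhds.2 fun o => tendsto_pi_nhds.2 fun i => ?_
    rcases o with _ | o
    · exact hd1 _
    · exact tendsto_finsetSum _ fun i' _ => (hd2 _ _).const_mul _
  have hdet : Tendsto (fun k => (N (Fk k)).det) atTop (𝓝 (N F).det) :=
    ((continuous_id.matrix_det).tendsto (N F)).comp hNlim
  filter_upwards [hdet.eventually_ne hdet0] with k hk h1 h2
  refine ⟨h1, h2, ?_⟩
  intro z hz0 hz1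
  have h3 : (N (Fk k)).mulVec (fun i => z (e.symm i)) = 0 := by
    funext o
    rcases o with _ | o
    · rw [hmul0]; exact hz0
    · rw [hmul1]; exact hz1 o
  have h4 := Matrix.eq_zero_of_mulVec_eq_zero hk h3
  funext i
  have := congrFun h4 (e i)
  simpa using this

end Pool.Agent.L5helper59.DM
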